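import Pool.Agent.Lib.MP_9c5702_nt.Cube.Main
import Pool.Agent.Lib.MP_9c5702_nt.Cube.Primes

/-! A power saving for the number of representations of a cube as a sum of three positive cubes. -/

set_option autoImplicit false

namespace Pool.Agent.Lib.MP_9c5702_nt.Old.CubeSaving

open Pool.Agent.Lib.MP_9c5702_nt Pool.Agent.Lib.MP_9c5702_nt.Cube Finset Filter

theorem r33_le (n : ℕ) : r33 n ≤ n ^ 3 := by
  refine (card_filter_le _ _).trans (le_of_eq ?_)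
  simp only [card_product, Nat.card_Icc, Nat.add_sub_cancel]
  ring

theorem of_scale {N T0 : ℕ} (hN : N ≠ 0)
    (H : ∀ T, T0 ≤ T → ∀ w : ℕ, T ^ N ≤ w → w ≤ (T + 1) ^ N → (r33 (w ^ 3) : ℝ) ≤ w / T) :
    ∃ C : ℝ, 0 ≤ C ∧ ∀ w : ℕ, 1 ≤ w → (r33 (w ^ 3) : ℝ) ≤ C * (w : ℝ) ^ (1 - 1 / N : ℝ) := by
  refine ⟨2 + (((T0 + 1) ^ N) ^ 3) ^ 3, by positivity, fun w hw => ?_⟩
  have hw1 : (1 : ℝ) ≤ w := by exact_mod_cast hw
  have hN1 : (1 : ℝ) ≤ N := by exact_mod_cast Nat.pos_of_ne_zero hN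
  have h1 : Nat.nthRoot N w ^ N ≤ w := Nat.pow_nthRoot_le (Or.inl hN)
  have h2 : w < (Nat.nthRoot N w + 1) ^ N := Nat.lt_pow_nthRoot_add_one hN w
  generalize Nat.nthRoot N w = T at h1 h2
  have hT1 : 1 ≤ T := by
    by_contra h
    obtain rfl : T = 0 := by omega
    rw [zero_add, one_pow] at h2
    omega
  have h3 : 1 ≤ (w : ℝ) ^ (1 - 1 / N : ℝ) :=
    Real.one_le_rpow hw1 (sub_nonneg.2 ((div_le_one (by linarith)).2 hN1))
  rcases le_total T0 T with h | h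
  · refine (H T h w h1 h2.le).trans (le_trans ?_ (mul_le_mul_of_nonneg_right
      (le_add_of_nonneg_right (by positivity)) (by linarith)))
    have hT : (0 : ℝ) < T := by exact_mod_cast hT1
    have h4 : (w : ℝ) ^ (1 / N : ℝ) ≤ 2 * T := by
      have h5 : w ≤ (2 * T) ^ N := h2.le.trans (Nat.pow_le_pow_left (by omega) _)
      have h6 : (w : ℝ) ≤ (2 * T : ℝ) ^ N := by exact_mod_cast h5
      rw [one_div]
      exact (Real.rpow_le_rpow (by linarith) h6 (by positivity)).trans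
        (Real.pow_rpow_inv_natCast (by positivity) hN).le
    have h5 : 0 < (w : ℝ) ^ (1 / N : ℝ) := by positivity
    rw [Real.rpow_sub (by linarith), Real.rpow_one, ← mul_div_assoc, div_le_div_iff₀ hT h5]
    nlinarith
  · have h4 : r33 (w ^ 3) ≤ (((T0 + 1) ^ N) ^ 3) ^ 3 := (r33_le _).trans (by
      gcongr
      exact h2.le.trans (by gcongr))
    have h5 : (r33 (w ^ 3) : ℝ) ≤ (((T0 + 1) ^ N) ^ 3) ^ 3 := by exact_mod_cast h4
    exact (h5.trans (by linarith)).trans (le_mul_of_one_le_right (by positivity) h3)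

theorem result : ∃ C : ℝ, ∀ w : ℕ, 1 ≤ w →
    (r33 (w ^ 3) : ℝ) ≤ C * ((w ^ 3 : ℕ) : ℝ) ^ ((1 : ℝ) / 3 - 1 / 10 ^ 8) := by
  obtain ⟨T0, hT0⟩ := eventually_atTop.1 ((eventually_ge_atTop 100).and
    ((primes_supply 1142).and ((primes_supply 89999).and (div_supply 18450000))))
  obtain ⟨C, hC0, hC⟩ := of_scale (N := 18450000) (T0 := T0) (by norm_num) fun T hT w h1 h2 => by
    obtain ⟨a1, ⟨Qs, a2, a3⟩, ⟨R, a4, a5⟩, a6⟩ := hT0 T hT
    have h3 : 3 ≤ T ^ 1142 := le_trans (by omega) (Nat.le_self_pow (by norm_num) T)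
    exact main_T a1 h1 (a6 w h2).1 (a6 w h2).2 Qs
      (fun q hq => ⟨(a2 q hq).1, (a2 q hq).2.1, h3.trans_lt (a2 q hq).2.2.1, (a2 q hq).2.2.2⟩)
      ((Nat.le_mul_of_pos_left _ (by norm_num)).trans a3) R
      (fun r hr => ⟨(a4 r hr).1, (a4 r hr).2.2.1.le, (a4 r hr).2.2.2⟩) a5
  refine ⟨C, fun w hw => (hC w hw).trans (mul_le_mul_of_nonneg_left ?_ hC0)⟩
  have hw1 : (1 : ℝ) ≤ w := by exact_mod_cast hw
  rw [Nat.cast_pow, ← Real.rpow_natCast, ← Real.rpow_mul (by linarith)]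
  exact Real.rpow_le_rpow_of_exponent_le hw1 (by norm_num)

end Pool.Agent.Lib.MP_9c5702_nt.Old.CubeSaving
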