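import Pool.Agent.Lib.MP_9c5702_nt.Mean
import Pool.Agent.Lib.MP_9c5702_nt.Mertens

/-! Upper bound `n^(1/3) log n (log log n)^2` for the number of representations of `n` as a sum
of three positive cubes, without the iterated logarithm for squarefree `n`. -/

namespace Pool.Agent.Lib.MP_9c5702_nt.Old.LogBound

open Pool.Agent.Lib.MP_9c5702_nt

theorem result : ∃ C : ℝ, ∀ n : ℕ, 16 ≤ n →
    (r33 n : ℝ) ≤ C * (n : ℝ) ^ ((1 : ℝ) / 3) * Real.log n *
        ∏ p ∈ n.primeFactors.filter (fun p => p ^ 2 ∣ n), (1 + 1 / (p : ℝ)) ^ 2 ∧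
      (r33 n : ℝ) ≤ C * (n : ℝ) ^ ((1 : ℝ) / 3) * Real.log n * Real.log (Real.log n) ^ 2 := by
  obtain ⟨C, hC, h⟩ := sum_hh_le
  refine ⟨48 * C * Real.exp 7 ^ 2, fun n hn => ?_⟩
  have h0 : (1 : ℝ) ≤ n := by exact_mod_cast (by omega : 1 ≤ n)
  set B : ℝ := (n : ℝ) ^ ((1 : ℝ) / 3) with hB
  have hB1 : 1 ≤ B := Real.one_le_rpow h0 (by norm_num)
  have hBn : B ≤ n := Real.rpow_le_self_of_one_le h0 (by norm_num)
  have hB3 : B ^ 3 = n := by
    rw [hB, ← Real.rpow_natCast, ← Real.rpow_mul (by linarith)]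
    norm_num
  set D := ⌊2 * B⌋₊ with hD
  have h1 : (r33 n : ℝ) ≤ 6 * ∑ d ∈ Finset.Ioc 0 D, (rho n d : ℝ) := by
    have := r33_le n D fun x hx => Nat.le_floor (by
      have h2 : (x : ℝ) ^ 3 ≤ B ^ 3 := by rw [hB3]; exact_mod_cast hx
      have h3 := le_of_pow_le_pow_left₀ (by norm_num) (by linarith) h2
      push_cast
      linarith)
    exact_mod_cast this
  have hDB : (D : ℝ) ≤ 2 * B := Nat.floor_le (by linarith)
  have hD1 : (1 : ℝ) ≤ D := by exact_mod_cast Nat.le_floor (by push_cast; linarith)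
  have h2 := Real.log_two_gt_d9
  have h3 : Real.log 2 ≤ Real.log n :=
    Real.log_le_log (by norm_num) (by exact_mod_cast (by omega : 2 ≤ n))
  have h4 : 1 + Real.log D ≤ 4 * Real.log n := by
    have h5 : Real.log D ≤ Real.log (2 * n) := Real.log_le_log (by linarith) (by linarith)
    rw [Real.log_mul (by norm_num) (by linarith)] at h5
    linarith
  set P := ∏ p ∈ n.primeFactors.filter (fun p => p ^ 2 ∣ n), (1 + 1 / (p : ℝ)) with hP
  have hP0 : 0 ≤ P := Finset.prod_nonneg fun _ _ => by positivity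
  have h5 := h n D (by omega)
  rw [Finset.prod_pow, ← hP] at h5 ⊢
  have h6 : (r33 n : ℝ) ≤ 48 * C * B * Real.log n * P ^ 2 := by
    refine h1.trans ((mul_le_mul_of_nonneg_left (sum_rho_le n D) (by norm_num)).trans ?_)
    have h7 : (0 : ℝ) ≤ ∑ e ∈ Finset.Ioc 0 D, hh n e / e :=
      Finset.sum_nonneg fun _ _ => div_nonneg (hh_nonneg _ _) (Nat.cast_nonneg _)
    have h8 := Real.log_nonneg hD1
    calc _ ≤ 6 * (2 * B * (4 * Real.log n) * (C * P ^ 2)) := by gcongr
      _ = _ := by ring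
  have h7 : 0 ≤ 48 * C * B * Real.log n := by
    have : 0 ≤ Real.log n := by linarith
    positivity
  have h8 : 1 ≤ Real.exp 7 ^ 2 := one_le_pow₀ (Real.one_le_exp (by norm_num))
  constructor
  · refine h6.trans ?_
    nlinarith [mul_nonneg h7 (sq_nonneg P)]
  · have h9 := prod_le_loglog n hn _ (Finset.filter_subset (fun p => p ^ 2 ∣ n) _)
    calc _ ≤ 48 * C * B * Real.log n * P ^ 2 := h6
      _ ≤ 48 * C * B * Real.log n * (Real.exp 7 * Real.log (Real.log n)) ^ 2 := by gcongr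
      _ = _ := by ring

end Pool.Agent.Lib.MP_9c5702_nt.Old.LogBound
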